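import Mathlib

set_option autoImplicit false

/-!
# Finite semigroups containing `L` or `R` have no finite basis of quasi-identities

A graph whose edges are mapped to edges of a cube `{+,-}^Λ` gives a left regular band: the vertices
are left zeros, and an edge `e` in direction `λ` sends `y` to its end on the same side of `λ` as `y`.
A closed walk in the cube is cut open at one vertex; the two copies of that vertex are separated by
no homomorphism to a small semigroup, but by homomorphisms to `L` as soon as an edge is missing.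
-/

namespace Pool.Agent.Results.MP_81d707_al.NoFiniteBasis

universe u v

/-- The three-element monoid with identity `zero` and two left zeros `pos`, `neg`. -/
inductive L : Type
  | zero
  | pos
  | neg

/-- multiplication of `L` -/
def L.mul : L → L → L
  | L.zero, b => b
  | L.pos, _ => L.pos
  | L.neg, _ => L.neg

instance : Semigroup L where
  mul := L.mul
  mul_assoc a b c := by
    cases a <;> rfl

/-- The three-element monoid with identity `zero` and two right zeros `pos`, `neg`. -/
inductive R : Type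
  | zero
  | pos
  | neg

/-- multiplication of `R` -/
def R.mul : R → R → R
  | a, R.zero => a
  | _, R.pos => R.pos
  | _, R.neg => R.neg

instance : Semigroup R where
  mul := R.mul
  mul_assoc a b c := by
    cases c <;> rfl

/-- A quasi-identity `(u₁ = v₁) ∧ ⋯ ∧ (uₙ = vₙ) → u = v` between words in the variables
`x₀, x₁, …`. -/
structure QuasiIdentity where
  /-- the premises -/
  prem : List (FreeSemigroup ℕ × FreeSemigroup ℕ)
  /-- the conclusion -/
  concl : FreeSemigroup ℕ × FreeSemigroup ℕ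

/-- The quasi-identity `q` is true in the semigroup `T`. -/
def QuasiIdentity.Holds (q : QuasiIdentity) (T : Type v) [Semigroup T] : Prop :=
  ∀ f : ℕ → T, (∀ e ∈ q.prem, FreeSemigroup.lift f e.1 = FreeSemigroup.lift f e.2) →
    FreeSemigroup.lift f q.concl.1 = FreeSemigroup.lift f q.concl.2

/-- Some finite set of quasi-identities true in `S` implies every quasi-identity true in `S`. -/
def HasFiniteBasis (S : Type u) [Semigroup S] : Prop :=
  ∃ B : Set QuasiIdentity, B.Finite ∧ (∀ p ∈ B, QuasiIdentity.Holds p S) ∧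
    ∀ q : QuasiIdentity, q.Holds S →
      ∀ (T : Type) [Semigroup T], (∀ p ∈ B, QuasiIdentity.Holds p T) → q.Holds T

/-! ### The criterion -/

/-- variables of a word -/
def vars (w : FreeSemigroup ℕ) : Finset ℕ := insert w.head w.tail.toFinset

theorem vars_of (n : ℕ) : vars (FreeSemigroup.of n) = {n} := by
  simp [vars, FreeSemigroup.of]

theorem vars_mul (u w : FreeSemigroup ℕ) : vars (u * w) = vars u ∪ vars w := by
  ext a
  simp only [vars, FreeSemigroup.head_mul, FreeSemigroup.tail_mul, List.toFinset_append,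
    List.toFinset_cons, Finset.mem_insert, Finset.mem_union]
  tauto

/-- variables of a quasi-identity -/
def QuasiIdentity.vars (q : QuasiIdentity) : Finset ℕ :=
  NoFiniteBasis.vars q.concl.1 ∪ NoFiniteBasis.vars q.concl.2 ∪
    q.prem.toFinset.biUnion fun e => NoFiniteBasis.vars e.1 ∪ NoFiniteBasis.vars e.2

theorem lift_mem {B : Type} [Semigroup B] (T : Set B) (hT : ∀ u ∈ T, ∀ v ∈ T, u * v ∈ T)
    (f : ℕ → B) (w : FreeSemigroup ℕ) (hw : ∀ n ∈ vars w, f n ∈ T) :
    FreeSemigroup.lift f w ∈ T := by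
  induction w using FreeSemigroup.recOnMul with
  | ih1 n =>
    rw [FreeSemigroup.lift_of]
    exact hw n (by rw [vars_of]; simp)
  | ih2 n w h1 h2 =>
    rw [map_mul]
    rw [vars_mul] at hw
    exact hT _ (h1 fun k hk => hw k (Finset.mem_union_left _ hk)) _
      (h2 fun k hk => hw k (Finset.mem_union_right _ hk))

theorem lift_map {B : Type} [Semigroup B] {S : Type u} [Semigroup S] (T : Set B)
    (hT : ∀ u ∈ T, ∀ v ∈ T, u * v ∈ T) (h : B → S)
    (hh : ∀ u ∈ T, ∀ v ∈ T, h (u * v) = h u * h v)
    (f : ℕ → B) (w : FreeSemigroup ℕ) (hw : ∀ n ∈ vars w, f n ∈ T) :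
    h (FreeSemigroup.lift f w) = FreeSemigroup.lift (h ∘ f) w := by
  induction w using FreeSemigroup.recOnMul with
  | ih1 n => rw [FreeSemigroup.lift_of, FreeSemigroup.lift_of]; rfl
  | ih2 n w h1 h2 =>
    rw [vars_mul] at hw
    have w1 : ∀ k ∈ vars (FreeSemigroup.of n), f k ∈ T :=
      fun k hk => hw k (Finset.mem_union_left _ hk)
    have w2 : ∀ k ∈ vars w, f k ∈ T := fun k hk => hw k (Finset.mem_union_right _ hk)
    rw [map_mul, map_mul, hh _ (lift_mem T hT f _ w1) _ (lift_mem T hT f _ w2), h1 w1, h2 w2]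

theorem criterion {S : Type u} [Semigroup S]
    (H : ∀ n : ℕ, ∃ (B : Type) (_ : Semigroup B) (_ : Fintype B) (a b : B), a ≠ b ∧
      (∀ h : B → S, (∀ u v, h (u * v) = h u * h v) → h a = h b) ∧
      ∀ G : Finset B, G.card ≤ n → ∃ T : Set B, ↑G ⊆ T ∧ (∀ u ∈ T, ∀ v ∈ T, u * v ∈ T) ∧
        ∀ y ∈ T, ∀ z ∈ T, y ≠ z →
          ∃ h : B → S, (∀ u ∈ T, ∀ v ∈ T, h (u * v) = h u * h v) ∧ h y ≠ h z) :
    ¬ HasFiniteBasis S := by
  classical
  rintro ⟨Bs, hfin, htrue, hall⟩
  -- number of variables
  obtain ⟨n, hn⟩ : ∃ n, ∀ p ∈ Bs, (QuasiIdentity.vars p).card ≤ n := by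
    refine ⟨hfin.toFinset.sup fun p => (QuasiIdentity.vars p).card, fun p hp => ?_⟩
    exact Finset.le_sup (f := fun p => (QuasiIdentity.vars p).card) (hfin.mem_toFinset.mpr hp)
  obtain ⟨B, _, _, a, b, hab, hSep, hLoc⟩ := H n
  -- B satisfies the basis
  have hB : ∀ p ∈ Bs, QuasiIdentity.Holds p B := by
    intro p hp f hf
    by_contra hne
    obtain ⟨T, hGT, hT, hTsep⟩ := hLoc (p.vars.image f) (Finset.card_image_le.trans (hn p hp))
    have hmem : ∀ k ∈ p.vars, f k ∈ T := fun k hk =>
      hGT (Finset.mem_coe.mpr (Finset.mem_image_of_mem f hk))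
    have hc1 : ∀ k ∈ vars p.concl.1, f k ∈ T := fun k hk => hmem k
      (Finset.mem_union_left _ (Finset.mem_union_left _ hk))
    have hc2 : ∀ k ∈ vars p.concl.2, f k ∈ T := fun k hk => hmem k
      (Finset.mem_union_left _ (Finset.mem_union_right _ hk))
    have hp1 : ∀ e ∈ p.prem, ∀ k ∈ vars e.1, f k ∈ T := fun e he k hk => hmem k
      (Finset.mem_union_right _ (Finset.mem_biUnion.mpr
        ⟨e, List.mem_toFinset.mpr he, Finset.mem_union_left _ hk⟩))
    have hp2 : ∀ e ∈ p.prem, ∀ k ∈ vars e.2, f k ∈ T := fun e he k hk => hmem k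
      (Finset.mem_union_right _ (Finset.mem_biUnion.mpr
        ⟨e, List.mem_toFinset.mpr he, Finset.mem_union_right _ hk⟩))
    obtain ⟨h, hh, hyz⟩ := hTsep _ (lift_mem T hT f _ hc1) _ (lift_mem T hT f _ hc2) hne
    apply hyz
    rw [lift_map T hT h hh f _ hc1, lift_map T hT h hh f _ hc2]
    apply htrue p hp
    intro e he
    rw [← lift_map T hT h hh f _ (hp1 e he), ← lift_map T hT h hh f _ (hp2 e he), hf e he]
  -- the quasi-identity given by the multiplication table
  obtain ⟨ι, hι⟩ : ∃ ι : B → ℕ, Function.Injective ι := by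
    obtain ⟨k, ⟨e⟩⟩ := Finite.exists_equiv_fin B
    exact ⟨fun x => (e x : ℕ), fun x y hxy => e.injective (Fin.ext hxy)⟩
  let q : QuasiIdentity :=
    ⟨(Finset.univ : Finset (B × B)).toList.map fun yz =>
      (FreeSemigroup.of (ι yz.1) * FreeSemigroup.of (ι yz.2), FreeSemigroup.of (ι (yz.1 * yz.2))),
      (FreeSemigroup.of (ι a), FreeSemigroup.of (ι b))⟩
  have hqS : q.Holds S := by
    intro f hf
    show FreeSemigroup.lift f (FreeSemigroup.of (ι a)) = FreeSemigroup.lift f (FreeSemigroup.of (ι b))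
    rw [FreeSemigroup.lift_of, FreeSemigroup.lift_of]
    refine hSep (fun x => f (ι x)) ?_
    intro y z
    have := hf (FreeSemigroup.of (ι y) * FreeSemigroup.of (ι z), FreeSemigroup.of (ι (y * z)))
      (List.mem_map.mpr ⟨(y, z), Finset.mem_toList.mpr (Finset.mem_univ _), rfl⟩)
    simp only [map_mul, FreeSemigroup.lift_of] at this
    exact this.symm
  have hqB := hall q hqS B hB
  have : Nonempty B := ⟨a⟩
  have hinv : ∀ x, Function.invFun ι (ι x) = x := Function.leftInverse_invFun hι
  have h1 := hqB (Function.invFun ι) (by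
    intro e he
    obtain ⟨⟨y, z⟩, -, rfl⟩ := List.mem_map.mp he
    simp only [map_mul, FreeSemigroup.lift_of, hinv])
  have h2 : FreeSemigroup.lift (Function.invFun ι) (FreeSemigroup.of (ι a)) =
      FreeSemigroup.lift (Function.invFun ι) (FreeSemigroup.of (ι b)) := h1
  rw [FreeSemigroup.lift_of, FreeSemigroup.lift_of, hinv, hinv] at h2
  exact hab h2

/-! ### Graphs over a cube -/

/-- a graph with a map to the cube `{+,-}^Λ` sending edges to edges -/
structure Gr (V E Λ : Type) where
  /-- image of a vertex -/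
  f : V → Λ → Bool
  /-- direction of an edge -/
  dir : E → Λ
  /-- ends of an edge -/
  ep : E → Bool → V
  ep_dir : ∀ e s, f (ep e s) (dir e) = s
  ep_ne : ∀ e μ, μ ≠ dir e → f (ep e true) μ = f (ep e false) μ

/-- the semigroup of a graph -/
inductive GS {V E Λ : Type} (Γ : Gr V E Λ) : Type
  | vx (v : V) : GS Γ
  | ed (e : E) : GS Γ

section graph

variable {V E Λ : Type} [DecidableEq Λ] (Γ : Gr V E Λ)

/-- coordinate -/
def sg (μ : Λ) : GS Γ → Option Bool
  | GS.vx v => some (Γ.f v μ)
  | GS.ed e => if Γ.dir e = μ then none else some (Γ.f (Γ.ep e true) μ)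

/-- multiplication by an edge -/
def eml (e : E) : Option Bool → GS Γ
  | none => GS.ed e
  | some s => GS.vx (Γ.ep e s)

/-- multiplication -/
def gmul : GS Γ → GS Γ → GS Γ
  | GS.vx v, _ => GS.vx v
  | GS.ed e, z => eml Γ e (sg Γ (Γ.dir e) z)

omit [DecidableEq Λ] in
theorem ep_any (e : E) (μ : Λ) (h : μ ≠ Γ.dir e) (s : Bool) :
    Γ.f (Γ.ep e s) μ = Γ.f (Γ.ep e true) μ := by
  cases s
  · exact (Γ.ep_ne e μ h).symm
  · rfl

theorem sg_gmul (μ : Λ) (y z : GS Γ) : sg Γ μ (gmul Γ y z) = (sg Γ μ y).or (sg Γ μ z) := by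
  rcases y with v | e
  · rfl
  · show sg Γ μ (eml Γ e (sg Γ (Γ.dir e) z)) = _
    by_cases h : Γ.dir e = μ
    · subst h
      have h1 : sg Γ (Γ.dir e) (GS.ed e) = none := by
        show (if Γ.dir e = Γ.dir e then none else some (Γ.f (Γ.ep e true) (Γ.dir e))) = none
        rw [if_pos rfl]
      rw [h1, Option.none_or]
      rcases hz : sg Γ (Γ.dir e) z with _ | s
      · exact h1
      · show some (Γ.f (Γ.ep e s) (Γ.dir e)) = some s
        rw [Γ.ep_dir]
    · have h1 : sg Γ μ (GS.ed e) = some (Γ.f (Γ.ep e true) μ) := by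
        show (if Γ.dir e = μ then none else some (Γ.f (Γ.ep e true) μ)) = _
        rw [if_neg h]
      rw [h1, Option.some_or]
      rcases hz : sg Γ (Γ.dir e) z with _ | s
      · exact h1
      · show some (Γ.f (Γ.ep e s) μ) = some (Γ.f (Γ.ep e true) μ)
        rw [ep_any Γ e μ (Ne.symm h)]

theorem gmul_assoc (x y z : GS Γ) : gmul Γ (gmul Γ x y) z = gmul Γ x (gmul Γ y z) := by
  rcases x with v | e
  · rfl
  · show gmul Γ (eml Γ e (sg Γ (Γ.dir e) y)) z = eml Γ e (sg Γ (Γ.dir e) (gmul Γ y z))
    rw [sg_gmul]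
    rcases hy : sg Γ (Γ.dir e) y with _ | s
    · rw [Option.none_or]; rfl
    · rw [Option.some_or]; rfl

instance : Semigroup (GS Γ) where
  mul := gmul Γ
  mul_assoc := gmul_assoc Γ

theorem mul_eq (x y : GS Γ) : x * y = gmul Γ x y := rfl

/-- embedding of `Option Bool` in `L` -/
def toL : Option Bool → L
  | none => L.zero
  | some true => L.pos
  | some false => L.neg

theorem toL_or (a b : Option Bool) : toL (a.or b) = toL a * toL b := by
  rcases a with _ | a
  · rw [Option.none_or]; rfl
  · cases a <;> rfl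

theorem toL_injective : Function.Injective toL := by
  intro a b h
  rcases a with _ | a <;> rcases b with _ | b
  · rfl
  · cases b <;> simp [toL] at h
  · cases a <;> simp [toL] at h
  · cases a <;> cases b <;> simp [toL] at h <;> rfl

/-- homomorphism given by a coordinate -/
theorem hsg_mul (μ : Λ) (y z : GS Γ) :
    toL (sg Γ μ (y * z)) = toL (sg Γ μ y) * toL (sg Γ μ z) := by
  rw [mul_eq, sg_gmul, toL_or]

/-- extension of a two-colouring of the vertices -/
def ext (ψ : V → Bool) : GS Γ → Option Bool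
  | GS.vx v => some (ψ v)
  | GS.ed e => some (ψ (Γ.ep e true))

theorem hext_mul (ψ : V → Bool) (y z : GS Γ)
    (hy : ∀ e, y = GS.ed e → ψ (Γ.ep e true) = ψ (Γ.ep e false)) :
    toL (ext Γ ψ (y * z)) = toL (ext Γ ψ y) * toL (ext Γ ψ z) := by
  rw [← toL_or]
  congr 1
  rcases y with v | e
  · rfl
  · have h1 := hy e rfl
    show ext Γ ψ (eml Γ e (sg Γ (Γ.dir e) z)) = some (ψ (Γ.ep e true))
    rcases hz : sg Γ (Γ.dir e) z with _ | s
    · rfl
    · show some (ψ (Γ.ep e s)) = some (ψ (Γ.ep e true))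
      cases s
      · rw [h1]
      · rfl

end graph

/-! ### The specific graph -/

/-- vertices -/
inductive Vt (m r : ℕ) : Type
  | x (l : Fin m)
  | ap
  | am
  | c (i j : Fin m) (k : Fin (2 * r - 1))
  deriving Fintype, DecidableEq

/-- edges: the walk of the pair `(i,j)` has edges `0, …, 2r-1` -/
abbrev Ed (m r : ℕ) : Type := (Fin m × Fin m) × Fin (2 * r)

/-- lines -/
abbrev Ln (m r : ℕ) : Type := (Fin m × Fin m) × Fin r

variable {m r : ℕ}

/-- the `k`-th vertex of the walk of the pair `(i,j)` -/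
def vt (i j : Fin m) (k : ℕ) : Vt m r :=
  if k = 0 then Vt.ap else if h : k - 1 < 2 * r - 1 then Vt.c i j ⟨k - 1, h⟩ else Vt.am

/-- sign of the `k`-th vertex of a walk with respect to the line `l` -/
def sgn (r k l : ℕ) : Bool := !(decide (l < k) && decide (k ≤ l + r))

/-- signs -/
def ff : Vt m r → Ln m r → Bool
  | Vt.x l, μ => !decide (l = μ.1.2)
  | Vt.ap, _ => true
  | Vt.am, _ => true
  | Vt.c i j k, μ => if (i, j) = μ.1 then sgn r (k + 1) μ.2 else true

theorem ff_vt (i j : Fin m) (k : ℕ) (hk : k ≤ 2 * r) (μ : Ln m r) :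
    ff (vt i j k) μ = if (i, j) = μ.1 then sgn r k μ.2 else true := by
  have hμ := μ.2.2
  unfold vt
  by_cases h0 : k = 0
  · subst h0
    simp [ff, sgn]
  · rw [if_neg h0]
    by_cases h1 : k - 1 < 2 * r - 1
    · rw [dif_pos h1]
      show (if (i, j) = μ.1 then sgn r (k - 1 + 1) μ.2 else true) = _
      rw [Nat.sub_add_cancel (by omega)]
    · rw [dif_neg h1]
      have : k = 2 * r := by omega
      subst this
      have : sgn r (2 * r) μ.2 = true := by
        simp only [sgn, Bool.not_eq_true', Bool.and_eq_false_iff, decide_eq_false_iff_not]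
        omega
      rw [this]
      simp [ff]

/-- the direction of an edge -/
def dd (e : Ed m r) : Ln m r :=
  (e.1, ⟨if e.2.1 < r then e.2.1 else e.2.1 - r, by have := e.2.2; split_ifs <;> omega⟩)

/-- the ends of an edge -/
def ee (e : Ed m r) (s : Bool) : Vt m r :=
  if (e.2.1 < r) = (s = true) then vt e.1.1 e.1.2 e.2.1 else vt e.1.1 e.1.2 (e.2.1 + 1)

/-- the graph -/
def Gam (m r : ℕ) : Gr (Vt m r) (Ed m r) (Ln m r) where
  f := ff
  dir := dd
  ep := ee
  ep_dir := by
    rintro ⟨⟨i, j⟩, k⟩ s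
    have hk := k.2
    unfold ee dd
    simp only
    by_cases h : k.1 < r
    · cases s
      · rw [if_neg (by simp [h]), ff_vt i j _ (by omega), if_pos rfl]
        simp only [sgn, h, if_true, Bool.not_eq_false', Bool.and_eq_true, decide_eq_true_eq]
        omega
      · rw [if_pos (by simp [h]), ff_vt i j _ (by omega), if_pos rfl]
        simp only [sgn, h, if_true, Bool.not_eq_true', Bool.and_eq_false_iff,
          decide_eq_false_iff_not]
        omega
    · cases s
      · rw [if_pos (by simp [h]), ff_vt i j _ (by omega), if_pos rfl]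
        simp only [sgn, h, if_false, Bool.not_eq_false', Bool.and_eq_true, decide_eq_true_eq]
        omega
      · rw [if_neg (by simp [h]), ff_vt i j _ (by omega), if_pos rfl]
        simp only [sgn, h, if_false, Bool.not_eq_true', Bool.and_eq_false_iff,
          decide_eq_false_iff_not]
        omega
  ep_ne := by
    rintro ⟨⟨i, j⟩, k⟩ ⟨p, l⟩ hμ
    have hk := k.2
    have hl := l.2
    have key : ff (vt i j k.1) (p, l) = ff (vt i j (k.1 + 1) : Vt m r) (p, l) := by
      rw [ff_vt i j _ (by omega), ff_vt i j _ (by omega)]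
      by_cases hp : (i, j) = p
      · subst hp
        rw [if_pos rfl, if_pos rfl]
        have hne : (l : ℕ) ≠ if k.1 < r then k.1 else k.1 - r := by
          intro heq
          apply hμ
          unfold dd
          exact Prod.ext rfl (Fin.ext heq)
        unfold sgn
        congr 1
        rw [Bool.eq_iff_iff]
        simp only [Bool.and_eq_true, decide_eq_true_eq]
        split_ifs at hne <;> omega
      · rw [if_neg hp, if_neg hp]
    unfold ee
    simp only
    by_cases h : k.1 < r
    · rw [if_pos (by simp [h]), if_neg (by simp [h])]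
      exact key
    · rw [if_neg (by simp [h]), if_pos (by simp [h])]
      exact key.symm

/-- a graph semigroup is the disjoint union of vertices and edges -/
def gsEquiv {V E Λ : Type} (Γ : Gr V E Λ) : V ⊕ E ≃ GS Γ where
  toFun u := match u with
    | Sum.inl v => GS.vx v
    | Sum.inr e => GS.ed e
  invFun u := match u with
    | GS.vx v => Sum.inl v
    | GS.ed e => Sum.inr e
  left_inv u := by rcases u with v | e <;> rfl
  right_inv u := by rcases u with v | e <;> rfl

instance : Fintype (GS (Gam m r)) := Fintype.ofEquiv _ (gsEquiv (Gam m r))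

/-- ends of edges, as a set -/
theorem ee_cases (e : Ed m r) : (ee e true = vt e.1.1 e.1.2 e.2.1 ∧
      ee e false = vt e.1.1 e.1.2 (e.2.1 + 1)) ∨
    (ee e false = vt e.1.1 e.1.2 e.2.1 ∧ ee e true = vt e.1.1 e.1.2 (e.2.1 + 1)) := by
  unfold ee
  by_cases h : e.2.1 < r
  · left; simp [h]
  · right; simp [h]

theorem vt_zero (i j : Fin m) : (vt i j 0 : Vt m r) = Vt.ap := rfl

theorem vt_last (i j : Fin m) (hr : 0 < r) : (vt i j (2 * r) : Vt m r) = Vt.am := by
  unfold vt
  rw [if_neg (by omega), dif_neg (by omega)]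

/-- the two ends of the cut walk are not separated by small semigroups -/
theorem glob {S : Type u} [Semigroup S] [Finite S] (hm : Nat.card S < m) (hr : 0 < r)
    (h : GS (Gam m r) → S) (hh : ∀ u v, h (u * v) = h u * h v) :
    h (GS.vx Vt.ap) = h (GS.vx Vt.am) := by
  obtain ⟨i, j, hij, heq⟩ : ∃ i j : Fin m, i ≠ j ∧
      h (GS.vx (Vt.x i)) = h (GS.vx (Vt.x j)) := by
    by_contra hc
    push Not at hc
    have hinj : Function.Injective fun i : Fin m => h (GS.vx (Vt.x i)) := by
      intro i j hij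
      by_contra hne
      exact hc i j hne hij
    have := Nat.card_le_card_of_injective _ hinj
    rw [Nat.card_fin] at this
    omega
  have step : ∀ k : ℕ, k < 2 * r → h (GS.vx (vt i j k)) = h (GS.vx (vt i j (k + 1))) := by
    intro k hk
    let e : Ed m r := ((i, j), ⟨k, hk⟩)
    have hi : sg (Gam m r) (dd e) (GS.vx (Vt.x i)) = some true := by
      show some (!decide (i = j)) = some true
      simp [hij]
    have hj : sg (Gam m r) (dd e) (GS.vx (Vt.x j)) = some false := by
      show some (!decide (j = j)) = some false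
      simp
    have e1 : (GS.ed e : GS (Gam m r)) * (GS.vx (Vt.x i) : GS (Gam m r)) =
        GS.vx (ee e true) := by
      show eml (Gam m r) e (sg (Gam m r) (dd e) (GS.vx (Vt.x i))) = _
      rw [hi]; rfl
    have e2 : (GS.ed e : GS (Gam m r)) * (GS.vx (Vt.x j) : GS (Gam m r)) =
        GS.vx (ee e false) := by
      show eml (Gam m r) e (sg (Gam m r) (dd e) (GS.vx (Vt.x j))) = _
      rw [hj]; rfl
    have h1 := hh (GS.ed e) (GS.vx (Vt.x i))
    have h2 := hh (GS.ed e) (GS.vx (Vt.x j))
    rw [heq, ← h2, e1, e2] at h1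
    rcases ee_cases e with ⟨c1, c2⟩ | ⟨c1, c2⟩
    · rw [c1, c2] at h1; exact h1
    · rw [c1, c2] at h1; exact h1.symm
  have all : ∀ k : ℕ, k ≤ 2 * r → h (GS.vx Vt.ap) = h (GS.vx (vt i j k)) := by
    intro k
    induction k with
    | zero => intro _; rfl
    | succ k ih => intro hk; rw [ih (by omega), step k (by omega)]
  rw [all (2 * r) le_rfl, vt_last i j hr]

/-- signs separate the interior vertices of one walk -/
theorem sgn_sep (k k' : ℕ) (h : k < k') (h' : k' < 2 * r) :
    ∃ l < r, sgn r k l ≠ sgn r k' l := by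
  have key : ∀ l, (¬ ((l < k ∧ k ≤ l + r) ↔ (l < k' ∧ k' ≤ l + r))) →
      sgn r k l ≠ sgn r k' l := by
    intro l hl heq
    apply hl
    unfold sgn at heq
    rw [Bool.not_inj_iff, Bool.eq_iff_iff] at heq
    simpa using heq
  by_cases h1 : k' ≤ r
  · exact ⟨k, by omega, key _ (by omega)⟩
  · by_cases h2 : k' ≤ k + r
    · exact ⟨k' - r - 1, by omega, key _ (by omega)⟩
    · exact ⟨k' - r, by omega, key _ (by omega)⟩

theorem sgn_false (k : ℕ) (h : 0 < k) (h' : k < 2 * r) : ∃ l < r, sgn r k l = false := by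
  by_cases h1 : k ≤ r
  · exact ⟨k - 1, by omega, by
      simp only [sgn, Bool.not_eq_false', Bool.and_eq_true, decide_eq_true_eq]; omega⟩
  · exact ⟨k - r, by omega, by
      simp only [sgn, Bool.not_eq_false', Bool.and_eq_true, decide_eq_true_eq]; omega⟩

theorem vertex_sep (y z : Vt m r) (hyz : y ≠ z) (hff : ff y = ff z) :
    (∃ l, y = Vt.x l ∨ z = Vt.x l) ∨ (y = Vt.ap ∧ z = Vt.am) ∨ (y = Vt.am ∧ z = Vt.ap) := by
  have hc : ∀ (i j : Fin m) (k : Fin (2 * r - 1)), ∃ l : Fin r,
      ff (Vt.c i j k) ((i, j), l) = false := by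
    intro i j k
    obtain ⟨l, hl, h⟩ := sgn_false (r := r) (k.1 + 1) (by omega) (by omega)
    refine ⟨⟨l, hl⟩, ?_⟩
    show (if (i, j) = (i, j) then sgn r (k.1 + 1) l else true) = false
    rw [if_pos rfl, h]
  rcases y with l | _ | _ | ⟨i, j, k⟩
  · exact Or.inl ⟨l, Or.inl rfl⟩
  · rcases z with l | _ | _ | ⟨i, j, k⟩
    · exact Or.inl ⟨l, Or.inr rfl⟩
    · exact absurd rfl hyz
    · exact Or.inr (Or.inl ⟨rfl, rfl⟩)
    · obtain ⟨l, hl⟩ := hc i j k
      rw [← hff] at hl
      simp [ff] at hl
  · rcases z with l | _ | _ | ⟨i, j, k⟩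
    · exact Or.inl ⟨l, Or.inr rfl⟩
    · exact Or.inr (Or.inr ⟨rfl, rfl⟩)
    · exact absurd rfl hyz
    · obtain ⟨l, hl⟩ := hc i j k
      rw [← hff] at hl
      simp [ff] at hl
  · rcases z with l | _ | _ | ⟨i', j', k'⟩
    · exact Or.inl ⟨l, Or.inr rfl⟩
    · obtain ⟨l, hl⟩ := hc i j k
      rw [hff] at hl
      simp [ff] at hl
    · obtain ⟨l, hl⟩ := hc i j k
      rw [hff] at hl
      simp [ff] at hl
    · exfalso
      have hij : (i', j') = (i, j) := by
        by_contra hne
        obtain ⟨l, hl⟩ := hc i j k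
        rw [hff] at hl
        have : ff (Vt.c i' j' k') ((i, j), l) = true := by
          show (if (i', j') = (i, j) then sgn r (k'.1 + 1) l else true) = true
          rw [if_neg hne]
        rw [this] at hl
        exact absurd hl (by simp)
      obtain ⟨rfl, rfl⟩ := Prod.mk.inj hij
      have hs : ∀ l < r, sgn r (k.1 + 1) l = sgn r (k'.1 + 1) l := by
        intro l hl
        have := congrFun hff ((i', j'), ⟨l, hl⟩)
        simpa [ff] using this
      have hkk : k.1 ≠ k'.1 := by
        intro h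
        apply hyz
        rw [Fin.ext h]
      rcases Nat.lt_or_gt_of_ne hkk with h | h
      · obtain ⟨l, hl, hne⟩ := sgn_sep (r := r) (k.1 + 1) (k'.1 + 1) (by omega) (by omega)
        exact hne (hs l hl)
      · obtain ⟨l, hl, hne⟩ := sgn_sep (r := r) (k'.1 + 1) (k.1 + 1) (by omega) (by omega)
        exact hne (hs l hl).symm

/-- two-colouring of the vertices given by missing edges -/
def psi (g : Fin m → Fin m → Fin (2 * r)) : Vt m r → Bool
  | Vt.x _ => true
  | Vt.ap => true
  | Vt.am => false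
  | Vt.c i j k => decide (k.1 + 1 ≤ (g i j).1)

theorem psi_vt (g : Fin m → Fin m → Fin (2 * r)) (i j : Fin m) (k : ℕ) (hk : k ≤ 2 * r) :
    psi g (vt i j k) = decide (k ≤ (g i j).1) := by
  have hg := (g i j).2
  unfold vt
  by_cases h0 : k = 0
  · subst h0; simp [psi]
  · rw [if_neg h0]
    by_cases h1 : k - 1 < 2 * r - 1
    · rw [dif_pos h1]
      show decide (k - 1 + 1 ≤ (g i j).1) = _
      rw [Nat.sub_add_cancel (by omega)]
    · rw [dif_neg h1]
      have : ¬ k ≤ (g i j).1 := by omega
      simp [psi, this]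

theorem psi_edge (g : Fin m → Fin m → Fin (2 * r)) (e : Ed m r) (he : e.2 ≠ g e.1.1 e.1.2) :
    psi g (ee e true) = psi g (ee e false) := by
  have h1 := e.2.2
  have hne : e.2.1 ≠ (g e.1.1 e.1.2).1 := fun h => he (Fin.ext h)
  have key : psi g (vt e.1.1 e.1.2 e.2.1) = psi g (vt e.1.1 e.1.2 (e.2.1 + 1) : Vt m r) := by
    rw [psi_vt g _ _ _ (by omega), psi_vt g _ _ _ (by omega), Bool.eq_iff_iff]
    simp only [decide_eq_true_eq]
    omega
  rcases ee_cases e with ⟨c1, c2⟩ | ⟨c1, c2⟩
  · rw [c1, c2, key]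
  · rw [c1, c2, key]

theorem vt_ne_x (i j : Fin m) (k : ℕ) (l : Fin m) : (vt i j k : Vt m r) ≠ Vt.x l := by
  unfold vt
  split_ifs <;> simp

/-- local separation -/
theorem loc (hr : 2 ≤ r) (g : Fin m → Fin m → Fin (2 * r)) (y z : GS (Gam m r)) (hyz : y ≠ z) :
    ∃ h : GS (Gam m r) → L,
      (∀ u v, (∀ e : Ed m r, u = GS.ed e → e.2 ≠ g e.1.1 e.1.2) → h (u * v) = h u * h v) ∧
      h y ≠ h z := by
  -- it suffices to find a separating line or colouring
  by_cases hs : ∃ μ, sg (Gam m r) μ y ≠ sg (Gam m r) μ z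
  · obtain ⟨μ, hμ⟩ := hs
    exact ⟨fun u => toL (sg (Gam m r) μ u), fun u v _ => hsg_mul _ μ u v,
      fun h => hμ (toL_injective h)⟩
  push Not at hs
  have hx : ∀ l : Fin m, ∃ h : GS (Gam m r) → L,
      (∀ u v, (∀ e : Ed m r, u = GS.ed e → e.2 ≠ g e.1.1 e.1.2) → h (u * v) = h u * h v) ∧
      (∀ u, u ≠ GS.vx (Vt.x l) → h u ≠ h (GS.vx (Vt.x l))) := by
    intro l
    refine ⟨fun u => toL (ext (Gam m r) (fun v => decide (v = Vt.x l)) u), ?_, ?_⟩
    · intro u v _
      apply hext_mul
      intro e _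
      have : ∀ s, (Gam m r).ep e s ≠ Vt.x l := by
        intro s
        show ee e s ≠ Vt.x l
        rcases ee_cases e with ⟨c1, c2⟩ | ⟨c1, c2⟩ <;> cases s <;>
          (first | rw [c1] | rw [c2]) <;> exact vt_ne_x _ _ _ _
      simp [this]
    · intro u hu heq
      have h1 := toL_injective heq
      rcases u with v | e
      · have h2 : some (decide (v = Vt.x l)) = some (decide ((Vt.x l : Vt m r) = Vt.x l)) := h1
        simp only [decide_true, Option.some.injEq, decide_eq_true_eq] at h2
        exact hu (by rw [h2])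
      · have h2 : some (decide (ee e true = Vt.x l)) =
            some (decide ((Vt.x l : Vt m r) = Vt.x l)) := h1
        simp only [decide_true, Option.some.injEq, decide_eq_true_eq] at h2
        rcases ee_cases e with ⟨c1, c2⟩ | ⟨c1, c2⟩
        · rw [c1] at h2; exact vt_ne_x _ _ _ _ h2
        · rw [c2] at h2; exact vt_ne_x _ _ _ _ h2
  have hψ : (∀ u v, (∀ e : Ed m r, u = GS.ed e → e.2 ≠ g e.1.1 e.1.2) →
      toL (ext (Gam m r) (psi g) (u * v)) =
        toL (ext (Gam m r) (psi g) u) * toL (ext (Gam m r) (psi g) v)) := by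
    intro u v hu
    apply hext_mul
    intro e he
    exact psi_edge g e (hu e he)
  rcases y with y | e <;> rcases z with z | e'
  · have hff : ff y = ff z := by
      funext μ
      have := hs μ
      exact Option.some.inj this
    rcases vertex_sep y z (fun h => hyz (by rw [h])) hff with ⟨l, h | h⟩ | ⟨rfl, rfl⟩ | ⟨rfl, rfl⟩
    · subst h
      obtain ⟨h, h1, h2⟩ := hx l
      exact ⟨h, h1, fun heq => h2 _ (Ne.symm hyz) heq.symm⟩
    · subst h
      obtain ⟨h, h1, h2⟩ := hx l
      exact ⟨h, h1, fun heq => h2 _ hyz heq⟩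
    · refine ⟨fun u => toL (ext (Gam m r) (psi g) u), hψ, fun heq => ?_⟩
      have h1 := toL_injective heq
      simp [ext, psi] at h1
    · refine ⟨fun u => toL (ext (Gam m r) (psi g) u), hψ, fun heq => ?_⟩
      have h1 := toL_injective heq
      simp [ext, psi] at h1
  · exfalso
    have := hs (dd e')
    have h2 : sg (Gam m r) (dd e') (GS.ed e') = none := if_pos rfl
    rw [h2] at this
    exact absurd this (by simp [sg])
  · exfalso
    have := hs (dd e)
    have h2 : sg (Gam m r) (dd e) (GS.ed e) = none := if_pos rfl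
    rw [h2] at this
    exact absurd this (by simp [sg])
  · exfalso
    have hd : dd e' = dd e := by
      by_contra hne
      have := hs (dd e)
      have h2 : sg (Gam m r) (dd e) (GS.ed e) = none := if_pos rfl
      have h3 : sg (Gam m r) (dd e) (GS.ed e') = some (ff (ee e' true) (dd e)) := if_neg hne
      rw [h2, h3] at this
      exact absurd this (by simp)
    obtain ⟨⟨i, j⟩, k⟩ := e
    obtain ⟨⟨i', j'⟩, k'⟩ := e'
    have hk := k.2
    have hk' := k'.2
    have h1 : (i', j') = (i, j) := congrArg Prod.fst hd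
    obtain ⟨rfl, rfl⟩ := Prod.mk.inj h1
    have h2 : (if k'.1 < r then k'.1 else k'.1 - r) = (if k.1 < r then k.1 else k.1 - r) :=
      congrArg Fin.val (congrArg Prod.snd hd)
    have hkk : k.1 ≠ k'.1 := by
      intro h
      apply hyz
      rw [Fin.ext h]
    -- another line
    set l0 := (if k.1 < r then k.1 else k.1 - r) with hl0
    have hl0r : l0 < r := by rw [hl0]; split_ifs <;> omega
    obtain ⟨l, hl, hll⟩ : ∃ l < r, l ≠ l0 := by
      by_cases h : l0 = 0
      · exact ⟨1, by omega, by omega⟩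
      · exact ⟨0, by omega, by omega⟩
    have h3 := hs ((i', j'), ⟨l, hl⟩)
    have hde : ∀ kk : Fin (2 * r), (if kk.1 < r then kk.1 else kk.1 - r) = l0 →
        sg (Gam m r) ((i', j'), ⟨l, hl⟩) (GS.ed ((i', j'), kk)) =
          some (ff (ee ((i', j'), kk) true) ((i', j'), ⟨l, hl⟩)) := by
      intro kk hkk
      apply if_neg
      intro heq
      have : (if kk.1 < r then kk.1 else kk.1 - r) = l := congrArg Fin.val (congrArg Prod.snd heq)
      omega
    rw [hde k hl0.symm, hde k' h2, Option.some.injEq] at h3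
    have hval : ∀ kk : Fin (2 * r), (if kk.1 < r then kk.1 else kk.1 - r) = l0 →
        ff (ee ((i', j'), kk) true) ((i', j'), ⟨l, hl⟩) = sgn r kk.1 l := by
      intro kk hkk
      have hkk2 := kk.2
      rcases ee_cases ((i', j'), kk) with ⟨c1, c2⟩ | ⟨c1, c2⟩
      · rw [c1]
        show ff (vt i' j' kk.1) _ = _
        rw [ff_vt _ _ _ (by omega), if_pos rfl]
      · rw [c2]
        show ff (vt i' j' (kk.1 + 1)) _ = _
        rw [ff_vt _ _ _ (by omega), if_pos rfl]
        unfold sgn
        congr 1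
        rw [Bool.eq_iff_iff]
        simp only [Bool.and_eq_true, decide_eq_true_eq]
        split_ifs at hkk <;> omega
    rw [hval k hl0.symm, hval k' h2] at h3
    unfold sgn at h3
    rw [Bool.not_inj_iff, Bool.eq_iff_iff] at h3
    simp only [Bool.and_eq_true, decide_eq_true_eq] at h3
    split_ifs at h2 hl0 <;> omega

theorem missing (n : ℕ) (hn : n < 2 * r) (G : Finset (GS (Gam m r))) (hG : G.card ≤ n)
    (i j : Fin m) : ∃ k : Fin (2 * r), (GS.ed ((i, j), k) : GS (Gam m r)) ∉ G := by
  by_contra hc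
  push Not at hc
  have hinj : Function.Injective fun k : Fin (2 * r) =>
      (GS.ed ((i, j), k) : GS (Gam m r)) := by
    intro k k' h
    have h' : (GS.ed ((i, j), k) : GS (Gam m r)) = GS.ed ((i, j), k') := h
    simpa using h'
  have h1 := Finset.card_le_card_of_injOn (s := Finset.univ) (t := G)
    (fun k : Fin (2 * r) => (GS.ed ((i, j), k) : GS (Gam m r))) (fun k _ => hc k)
    (fun a _ b _ h => hinj h)
  rw [Finset.card_univ, Fintype.card_fin] at h1
  omega

theorem main_L {S : Type u} [Semigroup S] [Finite S] (n : ℕ) :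
    ∃ (B : Type) (_ : Semigroup B) (_ : Fintype B) (a b : B), a ≠ b ∧
      (∀ h : B → S, (∀ u v, h (u * v) = h u * h v) → h a = h b) ∧
      ∀ G : Finset B, G.card ≤ n → ∃ T : Set B, ↑G ⊆ T ∧ (∀ u ∈ T, ∀ v ∈ T, u * v ∈ T) ∧
        ∀ y ∈ T, ∀ z ∈ T, y ≠ z →
          ∃ h : B → L, (∀ u ∈ T, ∀ v ∈ T, h (u * v) = h u * h v) ∧ h y ≠ h z := by
  refine ⟨GS (Gam (Nat.card S + 1) (n + 2)), inferInstance, inferInstance,
    GS.vx Vt.ap, GS.vx Vt.am, ?_, ?_, ?_⟩
  · intro h
    simp at h
  · intro h hh
    exact glob (by omega) (by omega) h hh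
  · intro G hG
    choose g hg using fun i j => missing n (by omega) G hG i j
    refine ⟨{u | ∀ e : Ed (Nat.card S + 1) (n + 2), u = GS.ed e → e.2 ≠ g e.1.1 e.1.2},
      ?_, ?_, ?_⟩
    · intro u hu e he hk
      subst he
      obtain ⟨⟨i, j⟩, k⟩ := e
      apply hg i j
      have hk' : k = g i j := hk
      rw [← hk']
      exact hu
    · intro u hu v _ e he
      rcases u with w | e'
      · have h1 : (GS.vx w : GS (Gam (Nat.card S + 1) (n + 2))) = GS.ed e := he
        simp at h1
      · have he' : eml (Gam (Nat.card S + 1) (n + 2)) e'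
          (sg (Gam (Nat.card S + 1) (n + 2)) (dd e') v) = GS.ed e := he
        rcases hs : sg (Gam (Nat.card S + 1) (n + 2)) (dd e') v with _ | s
        · rw [hs] at he'
          have h1 : (GS.ed e' : GS (Gam (Nat.card S + 1) (n + 2))) = GS.ed e := he'
          have h2 : e' = e := by simpa using h1
          exact hu e (by rw [h2])
        · rw [hs] at he'
          have h1 : (GS.vx (ee e' s) : GS (Gam (Nat.card S + 1) (n + 2))) = GS.ed e := he'
          simp at h1
    · intro y _ z _ hyz
      obtain ⟨h, h1, h2⟩ := loc (by omega) g y z hyz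
      exact ⟨h, fun u hu v _ => h1 u v hu, h2⟩

/-- Every finite semigroup containing a copy of `L` or of `R` has no finite basis for its
quasi-identities. -/
theorem result (S : Type u) [Semigroup S] [Finite S]
    (hS : (∃ φ : L →ₙ* S, Function.Injective φ) ∨ (∃ φ : R →ₙ* S, Function.Injective φ)) :
    ¬ HasFiniteBasis S := by
  rcases hS with ⟨φ, hφ⟩ | ⟨φ, hφ⟩
  · apply criterion
    intro n
    obtain ⟨B, i1, i2, a, b, hab, h1, h2⟩ := main_L (S := S) n
    refine ⟨B, i1, i2, a, b, hab, h1, fun G hG => ?_⟩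
    obtain ⟨T, hT1, hT2, hT3⟩ := h2 G hG
    refine ⟨T, hT1, hT2, fun y hy z hz hyz => ?_⟩
    obtain ⟨h, hh1, hh2⟩ := hT3 y hy z hz hyz
    exact ⟨fun u => φ (h u), fun u hu v hv => by
      show φ (h (u * v)) = φ (h u) * φ (h v)
      rw [hh1 u hu v hv, map_mul], fun heq => hh2 (hφ heq)⟩
  · apply criterion
    intro n
    have : Finite Sᵐᵒᵖ := Finite.of_equiv S MulOpposite.opEquiv
    obtain ⟨B, i1, i2, a, b, hab, h1, h2⟩ := main_L (S := Sᵐᵒᵖ) n
    refine ⟨Bᵐᵒᵖ, inferInstance, Fintype.ofEquiv B MulOpposite.opEquiv, MulOpposite.op a, MulOpposite.op b,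
      fun h => hab (MulOpposite.op_injective h), ?_, ?_⟩
    · intro h hh
      have := h1 (fun u => MulOpposite.op (h (MulOpposite.op u))) (by
        intro u v
        rw [MulOpposite.op_mul, hh, MulOpposite.op_mul])
      exact MulOpposite.op_injective this
    · intro G hG
      classical
      obtain ⟨T, hT1, hT2, hT3⟩ := h2 (G.image MulOpposite.unop)
        (Finset.card_image_le.trans hG)
      -- `L` as the opposite of `R`
      let ρ : L → R := fun u => match u with
        | L.zero => R.zero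
        | L.pos => R.pos
        | L.neg => R.neg
      have hρ : ∀ u v : L, ρ (u * v) = ρ v * ρ u := by
        intro u v
        cases u <;> cases v <;> rfl
      have hρi : Function.Injective ρ := by
        intro u v h
        cases u <;> cases v <;> simp_all [ρ]
      refine ⟨{u | u.unop ∈ T}, ?_, ?_, ?_⟩
      · intro u hu
        exact hT1 (Finset.mem_coe.mpr (Finset.mem_image_of_mem _ (Finset.mem_coe.mp hu)))
      · intro u hu v hv
        exact hT2 _ hv _ hu
      · intro y hy z hz hyz
        obtain ⟨h, hh1, hh2⟩ := hT3 y.unop hy z.unop hz (fun h => hyz (MulOpposite.unop_injective h))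
        refine ⟨fun u => φ (ρ (h u.unop)), ?_, fun heq => hh2 (hρi (hφ heq))⟩
        intro u hu v hv
        show φ (ρ (h (v.unop * u.unop))) = _
        rw [hh1 _ hv _ hu, hρ, map_mul]

end Pool.Agent.Results.MP_81d707_al.NoFiniteBasis
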